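import Mathlib
import Pool.Agent.helper1.UN.SpecU

/-!
# Project UN (MP_cf4097_nt), block H, row VGN: the local integrals over all places
-/

set_option autoImplicit false

open NumberField Complex MeasureTheory NumberField.Units NumberField.Units.dirichletUnitTheorem

open scoped Classical

namespace Pool.Agent.UN

lemma VGN_cpow (u : ℝ) (hu : 0 < u) (z : ℂ) : (u : ℂ) ^ z = cexp ((Real.log u : ℂ) * z) := by
  rw [Complex.cpow_def_of_ne_zero (by exact_mod_cast hu.ne'), Complex.ofReal_log hu.le]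

lemma VGN_cpow_mul (ν x : ℝ) (hν : 0 < ν) (z : ℂ) :
    ((ν * Real.exp x : ℝ) : ℂ) ^ z = (ν : ℂ) ^ z * cexp (z * x) := by
  rw [VGN_cpow _ (mul_pos hν (Real.exp_pos x)), VGN_cpow ν hν, ← Complex.exp_add,
    Real.log_mul hν.ne' (Real.exp_pos x).ne', Real.log_exp]
  congr 1
  push_cast
  ring

/-- one factor of the integrand -/
noncomputable def VGN_g {K : Type} [Field K] [NumberField K] (τ : InfinitePlace K → ℝ)
    (a : InfinitePlace K → ℕ) (ν : InfinitePlace K → ℝ) (s : ℂ) (w : InfinitePlace K) (t : ℝ) : ℂ :=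
  ((ν w : ℝ) : ℂ) ^ (ex τ a w) * (cexp ((ex τ a w + (w.mult : ℂ) * s / 2) * t) *
    ((Real.exp (-(Real.pi * (w.mult : ℝ) * ν w * Real.exp t)) : ℝ) : ℂ))

lemma VGN_prod {K : Type} [Field K] [NumberField K] (τ : InfinitePlace K → ℝ)
    (a : InfinitePlace K → ℕ) (ν : InfinitePlace K → ℝ) (s : ℂ) (hν : ∀ w, 0 < ν w)
    (x : InfinitePlace K → ℝ) :
    QT τ a (fun w => ν w * Real.exp (x w)) *
      cexp (s / 2 * ((∑ w : InfinitePlace K, (w.mult : ℝ) * x w : ℝ) : ℂ)) =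
      ∏ w, VGN_g τ a ν s w (x w) := by
  have h1 : ∏ w : InfinitePlace K, ((ν w * Real.exp (x w) : ℝ) : ℂ) ^ (ex τ a w) =
      (∏ w : InfinitePlace K, ((ν w : ℝ) : ℂ) ^ (ex τ a w)) *
        ∏ w : InfinitePlace K, cexp (ex τ a w * x w) := by
    rw [← Finset.prod_mul_distrib]
    exact Finset.prod_congr rfl fun w _ => VGN_cpow_mul _ _ (hν w) _
  have h2 : ((Real.exp (-(Real.pi * ∑ w : InfinitePlace K, (w.mult : ℝ) * (ν w * Real.exp (x w)))) : ℝ) : ℂ) =
      ∏ w : InfinitePlace K,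
        ((Real.exp (-(Real.pi * (w.mult : ℝ) * ν w * Real.exp (x w))) : ℝ) : ℂ) := by
    rw [← Complex.ofReal_prod, ← Real.exp_sum]
    congr 2
    rw [Finset.mul_sum, ← Finset.sum_neg_distrib]
    exact Finset.sum_congr rfl fun w _ => by ring
  have h3 : cexp (s / 2 * ((∑ w : InfinitePlace K, (w.mult : ℝ) * x w : ℝ) : ℂ)) =
      ∏ w : InfinitePlace K, cexp ((w.mult : ℂ) * s / 2 * x w) := by
    rw [← Complex.exp_sum]
    congr 1
    rw [Complex.ofReal_sum, Finset.mul_sum]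
    refine Finset.sum_congr rfl fun w _ => ?_
    push_cast
    ring
  have h4 : ∀ w : InfinitePlace K, cexp ((ex τ a w + (w.mult : ℂ) * s / 2) * x w) =
      cexp (ex τ a w * x w) * cexp ((w.mult : ℂ) * s / 2 * x w) := by
    intro w
    rw [← Complex.exp_add]
    congr 1
    ring
  unfold QT VGN_g
  rw [h1, h2, h3, Finset.prod_mul_distrib, Finset.prod_mul_distrib,
    Finset.prod_congr rfl fun w _ => h4 w, Finset.prod_mul_distrib]
  ring

lemma VGN_re {K : Type} [Field K] [NumberField K] (τ : InfinitePlace K → ℝ)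
    (a : InfinitePlace K → ℕ) (s : ℂ) (hs : 0 < s.re) (w : InfinitePlace K) :
    0 < (ex τ a w + (w.mult : ℂ) * s / 2).re := by
  have hm : (0 : ℝ) < (w.mult : ℝ) := by exact_mod_cast w.mult_pos
  have h1 : ex τ a w = (((a w : ℝ) / 2 : ℝ) : ℂ) + (((w.mult : ℝ) * τ w / 2 : ℝ) : ℂ) * I := by
    unfold ex
    push_cast
    ring
  have h2 : (w.mult : ℂ) * s / 2 = (((w.mult : ℝ) / 2 : ℝ) : ℂ) * s := by
    push_cast
    ring
  rw [h1, h2, Complex.add_re, Complex.add_re, Complex.ofReal_re, Complex.re_ofReal_mul,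
    Complex.re_ofReal_mul, Complex.I_re, mul_zero, add_zero]
  have h3 : (0 : ℝ) ≤ (a w : ℝ) / 2 := by positivity
  have h4 : 0 < (w.mult : ℝ) / 2 * s.re := by positivity
  linarith

theorem VGN (hVG1 : VG1_stmt) : VGN_stmt := by
  intro K _ _ τ a ν s hν hs
  have hc : ∀ w : InfinitePlace K, 0 < Real.pi * (w.mult : ℝ) * ν w := by
    intro w
    have hm : (0 : ℝ) < (w.mult : ℝ) := by exact_mod_cast w.mult_pos
    exact mul_pos (mul_pos Real.pi_pos hm) (hν w)
  have hfun : (fun x : InfinitePlace K → ℝ => QT τ a (fun w => ν w * Real.exp (x w)) *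
      cexp (s / 2 * ((∑ w : InfinitePlace K, (w.mult : ℝ) * x w : ℝ) : ℂ))) =
      fun x => ∏ w, VGN_g τ a ν s w (x w) := funext fun x => VGN_prod τ a ν s hν x
  have hint : ∀ w : InfinitePlace K, Integrable (VGN_g τ a ν s w) := by
    intro w
    exact (hVG1 _ _ (hc w) (VGN_re τ a s hs w)).1.const_mul _
  have hval : ∀ w : InfinitePlace K, ∫ t : ℝ, VGN_g τ a ν s w t =
      ((ν w : ℝ) : ℂ) ^ (-((w.mult : ℂ) * s / 2)) *
        (((Real.pi * (w.mult : ℝ) : ℝ) : ℂ) ^ (-(ex τ a w + (w.mult : ℂ) * s / 2)) *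
          Complex.Gamma (ex τ a w + (w.mult : ℂ) * s / 2)) := by
    intro w
    have hm : (0 : ℝ) < (w.mult : ℝ) := by exact_mod_cast w.mult_pos
    have hpm : 0 < Real.pi * (w.mult : ℝ) := mul_pos Real.pi_pos hm
    have h1 : ∫ t : ℝ, VGN_g τ a ν s w t = ((ν w : ℝ) : ℂ) ^ (ex τ a w) *
        (((Real.pi * (w.mult : ℝ) * ν w : ℝ) : ℂ) ^ (-(ex τ a w + (w.mult : ℂ) * s / 2)) *
          Complex.Gamma (ex τ a w + (w.mult : ℂ) * s / 2)) := by
      unfold VGN_g
      rw [integral_const_mul, (hVG1 _ _ (hc w) (VGN_re τ a s hs w)).2]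
    have h2 : ((Real.pi * (w.mult : ℝ) * ν w : ℝ) : ℂ) ^ (-(ex τ a w + (w.mult : ℂ) * s / 2)) =
        ((Real.pi * (w.mult : ℝ) : ℝ) : ℂ) ^ (-(ex τ a w + (w.mult : ℂ) * s / 2)) *
          ((ν w : ℝ) : ℂ) ^ (-(ex τ a w + (w.mult : ℂ) * s / 2)) := by
      rw [Complex.ofReal_mul (Real.pi * (w.mult : ℝ)) (ν w),
        Complex.mul_cpow_ofReal_nonneg hpm.le (hν w).le]
    have h3 : ((ν w : ℝ) : ℂ) ^ (ex τ a w) *
        ((ν w : ℝ) : ℂ) ^ (-(ex τ a w + (w.mult : ℂ) * s / 2)) =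
        ((ν w : ℝ) : ℂ) ^ (-((w.mult : ℂ) * s / 2)) := by
      rw [← Complex.cpow_add _ _ (by exact_mod_cast (hν w).ne')]
      congr 1
      ring
    rw [h1, h2, ← h3]
    ring
  refine ⟨?_, ?_⟩
  · rw [hfun]
    exact Integrable.fintype_prod_dep hint
  · rw [show (∫ x : InfinitePlace K → ℝ, QT τ a (fun w => ν w * Real.exp (x w)) *
      cexp (s / 2 * ((∑ w : InfinitePlace K, (w.mult : ℝ) * x w : ℝ) : ℂ))) =
      ∫ x : InfinitePlace K → ℝ, ∏ w, VGN_g τ a ν s w (x w) from by rw [hfun],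
      integral_fintype_prod_volume_eq_prod, Finset.prod_congr rfl fun w _ => hval w,
      Finset.prod_mul_distrib]
    rfl

end Pool.Agent.UN
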